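import Pool.Agent.Lib.MP_80c395_co_GT.MainG

/-!
# MP_80c395_co: packing of families of trees with few centres, any number of trees of any sizes

For every `C` there are `E` and `n₀` such that for all `n ≥ n₀`: every finite family of trees, each
of order at most `n + 1`, with at most `C(2n+1,2)` edges in total, each tree `T` having a set of at
most `1 + C e(T)/n` vertices which meets all but `e(T)/E` of its edges, packs into the complete
graph on `2n + 1` vertices.
-/

set_option autoImplicit false

namespace Pool.Agent.Results.MP_80c395_co.AllSizes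

theorem result :
    ∀ C : ℕ, ∃ E n₀ : ℕ, 0 < E ∧ ∀ n : ℕ, n₀ ≤ n →
      ∀ (k : ℕ) (m : Fin k → ℕ) (T : (i : Fin k) → SimpleGraph (Fin (m i))),
        (∀ i, (T i).IsTree) →
        (∀ i, m i ≤ n + 1) →
        (∑ i, (T i).edgeSet.ncard ≤ (2 * n + 1).choose 2) →
        (∀ i, ∃ B : Finset (Fin (m i)), B.card * n ≤ n + C * (T i).edgeSet.ncard ∧
          E * {ed ∈ (T i).edgeSet | ∀ b ∈ B, b ∉ ed}.ncard ≤ (T i).edgeSet.ncard) →
        ∃ f : (i : Fin k) → (Fin (m i) ↪ Fin (2 * n + 1)),
          ∀ i j : Fin k, i ≠ j →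
            ∀ (a b : Fin (m i)) (c d : Fin (m j)),
              (T i).Adj a b → (T j).Adj c d →
                s(f i a, f i b) ≠ s(f j c, f j d) := by
  intro C
  obtain ⟨E, n0, hE, h⟩ := Pool.Agent.GT.packs C
  refine ⟨E, n0, by omega, ?_⟩
  intro n hn k m T hT hm hsum hB
  have hcard : ∀ i, (T i).edgeSet.ncard = m i - 1 := by
    intro i
    have h2 := (SimpleGraph.isTree_iff_connected_and_card.mp (hT i)).2
    rw [Nat.card_coe_set_eq, Nat.card_eq_fintype_card, Fintype.card_fin] at h2
    omega
  have hF : Pool.Agent.GT.Fam n C E m T := by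
    refine ⟨hT, hm, ?_⟩
    intro i
    obtain ⟨B, hB1, hB2⟩ := hB i
    rw [hcard] at hB1 hB2
    by_cases hne : B.Nonempty
    · exact ⟨B, hne, hB1, hB2⟩
    · rw [Finset.not_nonempty_iff_eq_empty] at hne
      subst hne
      have h3 : {ed ∈ (T i).edgeSet | ∀ b ∈ (∅ : Finset (Fin (m i))), b ∉ ed} =
          (T i).edgeSet := by
        ext ed
        simp
      rw [h3, hcard] at hB2
      have h4 : m i - 1 = 0 := by
        by_contra h5
        have h6 : 2 * (m i - 1) ≤ E * (m i - 1) := Nat.mul_le_mul_right _ hE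
        omega
      obtain ⟨b⟩ := (hT i).connected.nonempty
      refine ⟨{b}, Finset.singleton_nonempty b, ?_, ?_⟩
      · rw [Finset.card_singleton]
        omega
      · have h7 : {ed ∈ (T i).edgeSet | ∀ b' ∈ ({b} : Finset (Fin (m i))), b' ∉ ed}.ncard ≤
            (T i).edgeSet.ncard := by
          apply Set.ncard_le_ncard _ (Set.toFinite _)
          exact Set.sep_subset _ _
        rw [hcard, h4] at h7
        rw [Nat.le_zero.mp h7]
        simp
  have hs : ∑ i, (m i - 1) ≤ n * (2 * n + 1) := by
    have h1 : (2 * n + 1).choose 2 = n * (2 * n + 1) := by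
      rw [Nat.choose_two_right]
      have : (2 * n + 1) * (2 * n + 1 - 1) = 2 * (n * (2 * n + 1)) := by
        rw [Nat.add_sub_cancel]; ring
      rw [this, Nat.mul_div_cancel_left _ (by norm_num)]
    rw [← h1]
    refine le_trans (le_of_eq ?_) hsum
    exact Finset.sum_congr rfl fun i _ => (hcard i).symm
  obtain ⟨f, hf, hf'⟩ := h n hn (Fin k) m T hF hs
  exact ⟨fun i => ⟨f i, hf i⟩, hf'⟩

end Pool.Agent.Results.MP_80c395_co.AllSizes
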