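import Pool.Agent.Lib.MP_80c395_co_TQ.S2Main

/-!
# MP_80c395_co: asymptotic packing of arbitrary trees

For every `ε > 0` there is `n₀` such that for all `n ≥ n₀`: every finite family of trees, each of
order at most `n + 1`, with at most `(1 - ε) C(2n+1,2)` edges in total, packs into the complete
graph on `2n + 1` vertices.
-/

set_option autoImplicit false

namespace Pool.Agent.Results.MP_80c395_co.AllTrees

theorem result :
    ∀ ε : ℝ, 0 < ε → ∃ n₀ : ℕ, ∀ n : ℕ, n₀ ≤ n →
      ∀ (k : ℕ) (m : Fin k → ℕ) (T : (i : Fin k) → SimpleGraph (Fin (m i))),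
        (∀ i, (T i).IsTree) →
        (∀ i, m i ≤ n + 1) →
        (∑ i, ((T i).edgeSet.ncard : ℝ) ≤ (1 - ε) * (2 * n + 1).choose 2) →
        ∃ f : (i : Fin k) → (Fin (m i) ↪ Fin (2 * n + 1)),
          ∀ i j : Fin k, i ≠ j →
            ∀ (a b : Fin (m i)) (c d : Fin (m j)),
              (T i).Adj a b → (T j).Adj c d →
                s(f i a, f i b) ≠ s(f j c, f j d) := by
  classical
  intro ε hε
  obtain ⟨n0, h⟩ := MP_80c395_TP.s2_all ε hε
  refine ⟨n0, ?_⟩
  intro n hn k m T hT hm hsum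
  have hcard : ∀ i, (T i).edgeSet.ncard = m i - 1 := by
    intro i
    have h2 := (SimpleGraph.isTree_iff_connected_and_card.mp (hT i)).2
    rw [Nat.card_coe_set_eq, Nat.card_eq_fintype_card, Fintype.card_fin] at h2
    omega
  have hs : ((∑ i, (m i - 1) : ℕ) : ℝ) ≤ (1 - ε) * (n * (2 * n + 1)) := by
    have h1 : (((2 * n + 1).choose 2 : ℕ) : ℝ) = n * (2 * n + 1) := by
      have h2 : (2 * n + 1).choose 2 = n * (2 * n + 1) := by
        rw [Nat.choose_two_right]
        have : (2 * n + 1) * (2 * n + 1 - 1) = 2 * (n * (2 * n + 1)) := by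
          rw [Nat.add_sub_cancel]; ring
        rw [this, Nat.mul_div_cancel_left _ (by norm_num)]
      rw [h2]
      push_cast
      ring
    rw [← h1]
    refine le_trans (le_of_eq ?_) hsum
    push_cast
    refine Finset.sum_congr rfl fun i _ => ?_
    rw [hcard i]
  obtain ⟨f, hf, hf'⟩ := h n hn k m T hT hm hs
  exact ⟨fun i => ⟨f i, hf i⟩, hf'⟩

end Pool.Agent.Results.MP_80c395_co.AllTrees
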