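import Pool.Agent.Lib.MP_80c395_co_BC.Main

/-!
# MP_80c395_co: packing of families of trees with a bounded number of centres

If `n ≥ (10^6 R)^(3R)`, then every family of at most `2n + 1` trees, each of order at most `n + 1`
and each having a set of at most `R` vertices which meets all but `n / (10^6 R^2)` of its edges,
packs into the complete graph on `2n + 1` vertices.
-/

set_option autoImplicit false

namespace Pool.Agent.Results.MP_80c395_co.BoundedCentres

theorem result :
    ∀ R n : ℕ, 1 ≤ R → (10 ^ 6 * R) ^ (3 * R) ≤ n →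
      ∀ (k : ℕ) (m : Fin k → ℕ) (T : (i : Fin k) → SimpleGraph (Fin (m i))),
        k ≤ 2 * n + 1 →
        (∀ i, (T i).IsTree) →
        (∀ i, m i ≤ n + 1) →
        (∀ i, ∃ B : Finset (Fin (m i)), B.card ≤ R ∧
          10 ^ 6 * R ^ 2 * {ed ∈ (T i).edgeSet | ∀ b ∈ B, b ∉ ed}.ncard ≤ n) →
        ∃ f : (i : Fin k) → (Fin (m i) ↪ Fin (2 * n + 1)),
          ∀ i j : Fin k, i ≠ j →
            ∀ (a b : Fin (m i)) (c d : Fin (m j)),
              (T i).Adj a b → (T j).Adj c d →
                s(f i a, f i b) ≠ s(f j c, f j d) := by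
  intro R n hR hn k m T hk hT hm hB
  exact Pool.Agent.BC.bounded_centres R n hR hn k m T hk hT hm hB

end Pool.Agent.Results.MP_80c395_co.BoundedCentres
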