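import Pool.Agent.Lib.MP_80c395_co.Main

/-!
# MP_80c395_co: packing of families of near-stars

Every finite family of trees of order at most `n + 1` with at most `(2n+1 choose 2)` edges in total
packs into the complete graph on `2n + 1` vertices, provided that every tree has a vertex which
misses at most one fiftieth of the edges of the tree.  Any `n`.
-/

set_option autoImplicit false

namespace Pool.Agent.Results.MP_80c395_co.NearStars

theorem result :
    ∀ (n k : ℕ) (m : Fin k → ℕ) (T : (i : Fin k) → SimpleGraph (Fin (m i))),
      (∀ i, (T i).IsTree) →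
      (∀ i, m i ≤ n + 1) →
      (∀ i, ∃ v : Fin (m i), 50 * ((T i).edgeSet.ncard - ((T i).neighborSet v).ncard) ≤
        (T i).edgeSet.ncard) →
      (∑ i, (T i).edgeSet.ncard) ≤ (2 * n + 1).choose 2 →
      ∃ f : (i : Fin k) → (Fin (m i) ↪ Fin (2 * n + 1)),
        ∀ i j : Fin k, i ≠ j →
          ∀ (a b : Fin (m i)) (c d : Fin (m j)),
            (T i).Adj a b → (T j).Adj c d →
              s(f i a, f i b) ≠ s(f j c, f j d) := by
  intro n k m T hT hm hnear hsum
  exact Pool.Agent.Lib.MP_80c395_co.pack_near_stars n k m T hT hm hnear hsum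

end Pool.Agent.Results.MP_80c395_co.NearStars
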